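import Pool.Agent.X18.BLM.Rel

/-!
Clique sums: the chromatic polynomial of the union of two graphs whose intersection is complete.
-/

set_option autoImplicit false
set_option linter.unusedSectionVars false

namespace Pool.Agent.X18.BLM

open Polynomial Pool.Agent.H207R2.BL

theorem exists_perm {S : Type} {k : ℕ} (e0 e : S → Fin k) (h0 : Function.Injective e0)
    (h : Function.Injective e) : ∃ P : Equiv.Perm (Fin k), ∀ s, P (e0 s) = e s := by
  classical
  let i : {x // x ∈ Set.range e0} ≃ {x // x ∈ Set.range e} :=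
    (Equiv.ofInjective e0 h0).symm.trans (Equiv.ofInjective e h)
  refine ⟨i.extendSubtype, fun s => ?_⟩
  rw [Equiv.extendSubtype_apply_of_mem i (e0 s) ⟨s, rfl⟩]
  change ((Equiv.ofInjective e h) ((Equiv.ofInjective e0 h0).symm ⟨e0 s, ⟨s, rfl⟩⟩)).1 = e s
  have : (Equiv.ofInjective e0 h0).symm ⟨e0 s, ⟨s, rfl⟩⟩ = s := by
    rw [Equiv.symm_apply_eq]
    rfl
  rw [this]
  rfl

theorem card_sum {V : Type} [Finite V] (G : SimpleGraph V) (A B : Set V)
    (hAB : A ∪ B = Set.univ) (hno : ∀ a ∈ A \ B, ∀ b ∈ B \ A, ¬ G.Adj a b)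
    (hcl : G.IsClique (A ∩ B)) (k : ℕ) :
    Nat.card {g : V → Fin k // Proper G g} *
      Nat.card {g : (A ∩ B : Set V) → Fin k // Proper (G.induce (A ∩ B)) g} =
    Nat.card {g : A → Fin k // Proper (G.induce A) g} *
      Nat.card {g : B → Fin k // Proper (G.induce B) g} := by
  classical
  let CS := {g : (A ∩ B : Set V) → Fin k // Proper (G.induce (A ∩ B)) g}
  let sA : {g : A → Fin k // Proper (G.induce A) g} → CS := fun a =>
    ⟨fun s => a.1 ⟨s.1, s.2.1⟩, fun x y hxy => a.2 _ _ hxy⟩
  let sB : {g : B → Fin k // Proper (G.induce B) g} → CS := fun b =>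
    ⟨fun s => b.1 ⟨s.1, s.2.2⟩, fun x y hxy => b.2 _ _ hxy⟩
  let sG : {g : V → Fin k // Proper G g} → CS := fun c =>
    ⟨fun s => c.1 s.1, fun x y hxy => c.2 _ _ hxy⟩
  rcases isEmpty_or_nonempty CS with he | ⟨⟨e0⟩⟩
  · have h1 : IsEmpty {g : A → Fin k // Proper (G.induce A) g} := ⟨fun a => he.false (sA a)⟩
    have h2 : Nat.card {g : A → Fin k // Proper (G.induce A) g} = 0 := Nat.card_of_isEmpty
    have h3 : Nat.card CS = 0 := Nat.card_of_isEmpty
    change _ * Nat.card CS = _
    rw [h2, h3, Nat.mul_zero, Nat.zero_mul]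
  · have hinj : ∀ e : CS, Function.Injective e.1 := by
      intro e x y hxy
      by_contra hne
      have hne' : x.1 ≠ y.1 := fun h => hne (Subtype.ext h)
      exact e.2 x y (hcl x.2 y.2 hne') hxy
    choose P hP using fun e : CS => exists_perm e0.1 e.1 (hinj e0) (hinj e)
    let π : CS → CS → Equiv.Perm (Fin k) := fun e e' => (P e).symm.trans (P e')
    have hπ : ∀ (e e' : CS) s, π e e' (e.1 s) = e'.1 s := by
      intro e e' s
      change P e' ((P e).symm (e.1 s)) = e'.1 s
      rw [← hP e s, Equiv.symm_apply_apply, hP e' s]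
    have hππ : ∀ (e e' : CS) x, π e' e (π e e' x) = x := by
      intro e e' x
      change P e ((P e').symm (P e' ((P e).symm x))) = x
      rw [Equiv.symm_apply_apply, Equiv.apply_symm_apply]
    have hmemB : ∀ x : V, x ∉ A → x ∈ B := by
      intro x hx
      have : x ∈ A ∪ B := by rw [hAB]; trivial
      exact this.resolve_left hx
    have hmemA : ∀ x : V, x ∉ B → x ∈ A := by
      intro x hx
      have : x ∈ A ∪ B := by rw [hAB]; trivial
      exact this.resolve_right hx
    rw [← Nat.card_prod, ← Nat.card_prod]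
    -- the glued colouring
    let gl : {g : A → Fin k // Proper (G.induce A) g} → {g : B → Fin k // Proper (G.induce B) g} →
        V → Fin k := fun a b x =>
      if hx : x ∈ A then a.1 ⟨x, hx⟩ else π (sB b) (sA a) (b.1 ⟨x, hmemB x hx⟩)
    have glA : ∀ a b x (hx : x ∈ A), gl a b x = a.1 ⟨x, hx⟩ := by
      intro a b x hx
      exact dif_pos hx
    have glB : ∀ a b x (hx : x ∈ B), gl a b x = π (sB b) (sA a) (b.1 ⟨x, hx⟩) := by
      intro a b x hx
      by_cases hxA : x ∈ A
      · rw [glA a b x hxA]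
        exact (hπ (sB b) (sA a) ⟨x, hxA, hx⟩).symm
      · exact dif_neg hxA
    have glp : ∀ a b, Proper G (gl a b) := by
      intro a b x y hxy
      have hcase : (x ∈ A ∧ y ∈ A) ∨ (x ∈ B ∧ y ∈ B) := by
        by_cases hxA : x ∈ A
        · by_cases hyA : y ∈ A
          · exact Or.inl ⟨hxA, hyA⟩
          · by_cases hxB : x ∈ B
            · exact Or.inr ⟨hxB, hmemB y hyA⟩
            · exact absurd hxy (hno x ⟨hxA, hxB⟩ y ⟨hmemB y hyA, hyA⟩)
        · by_cases hyB : y ∈ B
          · exact Or.inr ⟨hmemB x hxA, hyB⟩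
          · exact absurd hxy.symm (hno y ⟨hmemA y hyB, hyB⟩ x ⟨hmemB x hxA, hxA⟩)
      rcases hcase with ⟨hx, hy⟩ | ⟨hx, hy⟩
      · rw [glA a b x hx, glA a b y hy]
        exact a.2 ⟨x, hx⟩ ⟨y, hy⟩ hxy
      · rw [glB a b x hx, glB a b y hy]
        intro h
        exact b.2 ⟨x, hx⟩ ⟨y, hy⟩ hxy ((π (sB b) (sA a)).injective h)
    apply Nat.card_congr
    refine
      { toFun := fun c => (⟨fun x => c.1.1 x.1, fun x y hxy => c.1.2 _ _ hxy⟩,
          ⟨fun x => π (sG c.1) c.2 (c.1.1 x.1), fun x y hxy h =>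
            c.1.2 _ _ hxy ((π (sG c.1) c.2).injective h)⟩)
        invFun := fun ab => (⟨gl ab.1 ab.2, glp ab.1 ab.2⟩, sB ab.2)
        left_inv := ?_
        right_inv := ?_ }
    · rintro ⟨c, e⟩
      have h1 : sB ⟨fun x => π (sG c) e (c.1 x.1), fun x y hxy h =>
            c.2 _ _ hxy ((π (sG c) e).injective h)⟩ = e := by
        apply Subtype.ext
        funext s
        exact hπ (sG c) e s
      have h2 : sA ⟨fun x => c.1 x.1, fun x y hxy => c.2 _ _ hxy⟩ = sG c := rfl
      refine Prod.ext (Subtype.ext ?_) h1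
      funext x
      by_cases hx : x ∈ A
      · exact glA _ _ x hx
      · change gl _ _ x = c.1 x
        rw [glB _ _ x (hmemB x hx)]
        rw [h1, h2]
        exact hππ (sG c) e (c.1 x)
    · rintro ⟨a, b⟩
      have h1 : sG ⟨gl a b, glp a b⟩ = sA a := by
        apply Subtype.ext
        funext s
        exact glA a b s.1 s.2.1
      refine Prod.ext (Subtype.ext ?_) (Subtype.ext ?_)
      · funext x
        exact glA a b x.1 x.2
      · funext x
        change π (sG ⟨gl a b, glp a b⟩) (sB b) (gl a b x.1) = b.1 x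
        rw [h1, glB a b x.1 x.2]
        exact hππ (sB b) (sA a) (b.1 x)

theorem chr_sum {V : Type} [Finite V] (G : SimpleGraph V) (A B : Set V)
    (hAB : A ∪ B = Set.univ) (hno : ∀ a ∈ A \ B, ∀ b ∈ B \ A, ¬ G.Adj a b)
    (hcl : G.IsClique (A ∩ B)) :
    chr G * chr (G.induce (A ∩ B)) = chr (G.induce A) * chr (G.induce B) := by
  apply Polynomial.eq_of_infinite_eval_eq
  apply Set.infinite_of_injective_forall_mem (f := fun k : ℕ => (k : ℝ)) Nat.cast_injective
  intro k
  change (chr G * chr (G.induce (A ∩ B))).eval (k : ℝ) =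
    (chr (G.induce A) * chr (G.induce B)).eval (k : ℝ)
  rw [eval_mul, eval_mul, chr_spec _ k, chr_spec _ k, chr_spec _ k, chr_spec _ k, card_colorings,
    card_colorings, card_colorings, card_colorings]
  exact_mod_cast card_sum G A B hAB hno hcl k

theorem Minor.card_le {V : Type} [Finite V] {G : SimpleGraph V} {W : Type} {K : SimpleGraph W}
    (h : Minor G W K) : Nat.card W ≤ Nat.card V := by
  have key : Finite W ∧ Nat.card W ≤ Nat.card V := by
    induction h with
    | refl => exact ⟨inferInstance, le_rfl⟩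
    | edge W K H hHK _ ih => exact ih
    | vertex W K v _ ih =>
      have := ih.1
      exact ⟨inferInstance, (Finite.card_subtype_le _).trans ih.2⟩
    | contr W K u v huv _ ih =>
      have := ih.1
      exact ⟨inferInstance, (Finite.card_subtype_le _).trans ih.2⟩
  exact key.2

/-- a graph with at most `d + 1` vertices is positive at `q > d` -/
theorem tiny_pos (d : ℕ) (q : ℝ) (hq : (d : ℝ) < q) {V : Type} [Finite V] (G : SimpleGraph V)
    (hV : Nat.card V ≤ d + 1) : 0 < (chr G).eval q := by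
  refine minors_pos d q hq G ?_
  intro W K hK hW hdeg p hp
  exfalso
  obtain ⟨w⟩ := hW
  have := hK.finite
  have : Fintype W := Fintype.ofFinite W
  have h1 := hdeg w
  have h2 : K.neighborSet w ⊂ Set.univ := by
    refine ⟨Set.subset_univ _, fun h => ?_⟩
    have : w ∈ K.neighborSet w := h trivial
    exact K.loopless.irrefl w this
  have h3 : (K.neighborSet w).ncard < (Set.univ : Set W).ncard := Set.ncard_lt_ncard h2
  rw [Set.ncard_univ] at h3
  have h4 := hK.card_le
  omega

/-- positivity of clique sums along at most `d + 1` vertices -/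
theorem sum_pos (d : ℕ) (q : ℝ) (hq : (d : ℝ) < q) {V : Type} [Finite V] (G : SimpleGraph V)
    (A B : Set V)
    (hAB : A ∪ B = Set.univ) (hno : ∀ a ∈ A \ B, ∀ b ∈ B \ A, ¬ G.Adj a b)
    (hcl : G.IsClique (A ∩ B)) (hc : (A ∩ B).ncard ≤ d + 1)
    (hA : 0 < (chr (G.induce A)).eval q) (hB : 0 < (chr (G.induce B)).eval q) :
    0 < (chr G).eval q := by
  have h1 := congrArg (Polynomial.eval q) (chr_sum G A B hAB hno hcl)
  rw [eval_mul, eval_mul] at h1
  have h2 : 0 < (chr (G.induce (A ∩ B))).eval q := tiny_pos d q hq _ hc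
  have h3 := mul_pos hA hB
  rw [← h1] at h3
  by_contra hcon
  push Not at hcon
  have h4 := mul_nonpos_of_nonpos_of_nonneg hcon h2.le
  linarith

end Pool.Agent.X18.BLM
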