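import Pool.Agent.H207R2.BL.Woodall

/-!
Minors by deletions and contractions, and the relative form of the theorem of Woodall and Thomassen:
the chromatic polynomial of `G` is positive at `q > d` if it is positive at `q` for all minors of
`G` of minimum degree at least `d + 1`.
-/

set_option autoImplicit false
set_option linter.unusedSectionVars false

namespace Pool.Agent.X18.BLM

open Polynomial Pool.Agent.H207R2.BL

/-- `K` is a minor of `G`: it is obtained from `G` by deleting edges, deleting vertices and
contracting edges. -/
inductive Minor {V : Type} (G : SimpleGraph V) : (W : Type) → SimpleGraph W → Prop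
  | refl : Minor G V G
  | edge (W : Type) (K H : SimpleGraph W) : H ≤ K → Minor G W K → Minor G W H
  | vertex (W : Type) (K : SimpleGraph W) (v : W) : Minor G W K →
      Minor G {x : W // x ≠ v} (K.comap Subtype.val)
  | contr (W : Type) (K : SimpleGraph W) (u v : W) : K.Adj u v → Minor G W K →
      Minor G {x : W // x ≠ v} (contract K u v)

theorem Minor.closed {𝒞 : ∀ V : Type, SimpleGraph V → Prop} (h𝒞 : MinorClosed 𝒞) {V : Type}
    {G : SimpleGraph V} (hG : 𝒞 V G) {W : Type} {K : SimpleGraph W} (h : Minor G W K) : 𝒞 W K := by
  induction h with
  | refl => exact hG
  | edge W K H hHK _ ih => exact h𝒞.edge W K H hHK ih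
  | vertex W K v _ ih => exact h𝒞.vertex W K v ih
  | contr W K u v huv _ ih => exact h𝒞.contr W K u v huv ih

theorem Minor.trans {V : Type} {G : SimpleGraph V} {W : Type} {K : SimpleGraph W}
    (h : Minor G W K) {U : Type} {H : SimpleGraph U} (h' : Minor K U H) : Minor G U H := by
  induction h' with
  | refl => exact h
  | edge W K H hHK _ ih => exact Minor.edge W K H hHK ih
  | vertex W K v _ ih => exact Minor.vertex W K v ih
  | contr W K u v huv _ ih => exact Minor.contr W K u v huv ih

theorem Minor.finite {V : Type} [Finite V] {G : SimpleGraph V} {W : Type} {K : SimpleGraph W}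
    (h : Minor G W K) : Finite W := by
  induction h with
  | refl => infer_instance
  | edge W K H hHK _ ih => exact ih
  | vertex W K v _ ih => infer_instance
  | contr W K u v huv _ ih => infer_instance

/-- relative form of the theorem of Woodall and Thomassen -/
theorem rel_pos (𝒞 : ∀ V : Type, SimpleGraph V → Prop) (h𝒞 : MinorClosed 𝒞) (d : ℕ)
    (q : ℝ) (hq : (d : ℝ) < q)
    (hdeg : ∀ (V : Type) [Finite V] [Nonempty V] (G : SimpleGraph V), 𝒞 V G →
      (∃ v, (G.neighborSet v).ncard ≤ d) ∨ 0 < (chr G).eval q)
    {V : Type} [Finite V] (G : SimpleGraph V) (hG : 𝒞 V G) :
    0 < (chr G).eval q := by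
  classical
  induction hN : Nat.card V using Nat.strong_induction_on generalizing V with
  | _ N ih =>
    subst hN
    rcases isEmpty_or_nonempty V with he | hne
    · have h1 : chr G = 1 := by
        refine (eq_chr (p := (1 : ℝ[X])) ?_).symm
        intro k
        rw [card_colorings]
        have : Nat.card {g : V → Fin k // Proper G g} = 1 := by
          rw [Nat.card_eq_one_iff_unique]
          refine ⟨⟨fun a b => Subtype.ext (funext fun x => (he.false x).elim)⟩,
            ⟨fun x => (he.false x).elim, fun a => (he.false a).elim⟩⟩
        rw [this]
        simp
      rw [h1]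
      simp
    · rcases hdeg V G hG with ⟨v, hv⟩ | hdone
      swap
      · exact hdone
      have hcard : ∀ w : V, Nat.card {x : V // x ≠ w} < Nat.card V := by
        intro w
        have : Fintype V := Fintype.ofFinite V
        rw [Nat.card_eq_fintype_card, Nat.card_eq_fintype_card]
        exact Fintype.card_subtype_lt (p := fun x => x ≠ w) (x := w) (by simp)
      have hpos : ∀ (w : V) (K : SimpleGraph {x : V // x ≠ w}), 𝒞 _ K → 0 < (chr K).eval q :=
        fun w K hK => ih _ (hcard w) K hK rfl
      set H : SimpleGraph {x : V // x ≠ v} := G.comap Subtype.val with hH
      have hHC : 𝒞 _ H := h𝒞.vertex V G v hG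
      have hHpos := hpos v H hHC
      have hkeepC : ∀ S, 𝒞 V (keep G v S) := fun S =>
        h𝒞.edge V G _ (fun _ _ h => h.1) hG
      have key : ∀ S : Finset V, (∀ x ∈ S, G.Adj v x) →
          (q - S.card) * (chr H).eval q ≤ (chr (keep G v (S : Set V))).eval q := by
        intro S
        induction S using Finset.induction_on with
        | empty =>
          intro _
          have h1 := chr_isolated (keep G v ((∅ : Finset V) : Set V)) v (by
            intro x h
            have := h.2.1 rfl
            simp at this)
          have h2 : (keep G v ((∅ : Finset V) : Set V)).comap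
              (Subtype.val : {x : V // x ≠ v} → V) = H := by
            ext x y
            constructor
            · intro h
              exact h.1
            · intro h
              exact ⟨h, fun h' => absurd h' x.2, fun h' => absurd h' y.2⟩
          rw [h1, h2]
          simp
        | insert u S hu ihS =>
          intro hS
          have hGu : G.Adj v u := hS u (Finset.mem_insert_self u S)
          have ih' := ihS (fun x hx => hS x (Finset.mem_insert_of_mem hx))
          have huv : u ≠ v := hGu.ne'
          have h2 := del_con (keep G v ((insert u S : Finset V) : Set V))
            (keep G v (S : Set V)) u v huv (by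
              intro h
              exact hu (by simpa using h.2.1 rfl)) (by
              intro x y
              constructor
              · rintro ⟨h3, h4, h5⟩
                by_cases hx : x = v
                · subst hx
                  have h6 := h4 rfl
                  rw [Finset.coe_insert, Set.mem_insert_iff] at h6
                  rcases h6 with h6 | h6
                  · exact Or.inr (Or.inr ⟨rfl, h6⟩)
                  · exact Or.inl ⟨h3, fun _ => h6, fun h => absurd h h3.ne'⟩
                · by_cases hy : y = v
                  · subst hy
                    have h6 := h5 rfl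
                    rw [Finset.coe_insert, Set.mem_insert_iff] at h6
                    rcases h6 with h6 | h6
                    · exact Or.inr (Or.inl ⟨h6, rfl⟩)
                    · exact Or.inl ⟨h3, fun h => absurd h hx, fun _ => h6⟩
                  · exact Or.inl ⟨h3, fun h => absurd h hx, fun h => absurd h hy⟩
              · rintro (⟨h3, h4, h5⟩ | ⟨rfl, rfl⟩ | ⟨rfl, rfl⟩)
                · refine ⟨h3, fun h => ?_, fun h => ?_⟩
                  · rw [Finset.coe_insert]
                    exact Set.mem_insert_of_mem _ (h4 h)
                  · rw [Finset.coe_insert]
                    exact Set.mem_insert_of_mem _ (h5 h)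
                · refine ⟨hGu.symm, fun h => absurd h huv, fun _ => ?_⟩
                  simp
                · refine ⟨hGu, fun _ => ?_, fun h => absurd h huv⟩
                  simp)
          have h3 := congrArg (Polynomial.eval q) h2
          rw [Polynomial.eval_add] at h3
          -- the contracted graph contains `H`
          have h4 : H ≤ contract (keep G v (S : Set V)) u v := by
            intro x y h
            refine ⟨fun h' => h.ne h', Or.inl ⟨h, fun h' => absurd h' x.2, fun h' => absurd h' y.2⟩⟩
          have h5 : 𝒞 _ (contract (keep G v (S : Set V)) u v) := by
            refine h𝒞.edge _ (contract (keep G v ((insert u S : Finset V) : Set V)) u v) _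
              (contract_mono ?_ u v) ?_
            · rintro _ _ ⟨a1, a2, a3⟩
              refine ⟨a1, fun h => ?_, fun h => ?_⟩
              · rw [Finset.coe_insert]
                exact Set.mem_insert_of_mem _ (a2 h)
              · rw [Finset.coe_insert]
                exact Set.mem_insert_of_mem _ (a3 h)
            · refine h𝒞.contr _ _ u v ?_ (hkeepC _)
              refine ⟨hGu.symm, fun h => absurd h huv, fun _ => ?_⟩
              simp
          have h6 : (chr (contract (keep G v (S : Set V)) u v)).eval q ≤ (chr H).eval q := by
            apply chr_anti 𝒞 h𝒞 q _ H _ h4 h5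
            intro w K hK
            have hc1 : Nat.card {x : {x : V // x ≠ v} // x ≠ w} < Nat.card V := by
              refine lt_trans ?_ (hcard v)
              have : Fintype {x : V // x ≠ v} := Fintype.ofFinite _
              rw [Nat.card_eq_fintype_card, Nat.card_eq_fintype_card]
              exact Fintype.card_subtype_lt (p := fun x => x ≠ w) (x := w) (by simp)
            exact ih _ hc1 K hK rfl
          have h7 : (q - ((insert u S : Finset V).card : ℝ)) * (chr H).eval q =
              (q - S.card) * (chr H).eval q - (chr H).eval q := by
            rw [Finset.card_insert_of_notMem hu, Nat.cast_add, Nat.cast_one]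
            ring
          linarith
      have hfin : (G.neighborSet v).Finite := Set.toFinite _
      have h7 := key hfin.toFinset (by
        intro x hx
        simpa using hx)
      have h8 : keep G v (hfin.toFinset : Set V) = G := by
        ext x y
        constructor
        · intro h
          exact h.1
        · intro h
          refine ⟨h, fun h' => ?_, fun h' => ?_⟩
          · subst h'
            simpa using h
          · subst h'
            simpa using h.symm
      rw [h8] at h7
      have h9 : (hfin.toFinset.card : ℝ) ≤ d := by
        rw [← Set.ncard_eq_toFinset_card _ hfin]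
        exact_mod_cast hv
      have h10 : 0 < (q - hfin.toFinset.card) * (chr H).eval q := by
        apply mul_pos _ hHpos
        linarith
      linarith

/-- positivity at `q > d` if all minors of minimum degree at least `d + 1` are positive at `q` -/
theorem minors_pos (d : ℕ) (q : ℝ) (hq : (d : ℝ) < q) {V : Type} [Finite V] (G : SimpleGraph V)
    (h : ∀ (W : Type) (K : SimpleGraph W), Minor G W K → Nonempty W →
      (∀ w, d + 1 ≤ (K.neighborSet w).ncard) → ∀ p : ℝ[X], IsChrom K p → 0 < p.eval q) :
    0 < (chr G).eval q := by
  refine rel_pos (fun V G => ∀ (W : Type) (K : SimpleGraph W), Minor G W K → Nonempty W →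
      (∀ w, d + 1 ≤ (K.neighborSet w).ncard) → ∀ p : ℝ[X], IsChrom K p → 0 < p.eval q)
    ⟨?_, ?_, ?_⟩ d q hq ?_ G h
  · intro V G H hHG hG W K hK
    exact hG W K ((Minor.edge _ _ _ hHG Minor.refl).trans hK)
  · intro V G v hG W K hK
    exact hG W K ((Minor.vertex _ _ v Minor.refl).trans hK)
  · intro V G u v huv hG W K hK
    exact hG W K ((Minor.contr _ _ u v huv Minor.refl).trans hK)
  · intro V _ hne G hG
    by_cases hd : ∃ v, (G.neighborSet v).ncard ≤ d
    · exact Or.inl hd
    · push Not at hd
      exact Or.inr (hG V G Minor.refl hne hd _ (chr_spec G))

end Pool.Agent.X18.BLM
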